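import Pool.Agent.Helper70.SK.Stmts
import Pool.Agent.Helper70.SK.Lib

/-! Sticky Kakeya sets, module PIN: average Pinsker inequality. -/

namespace Pool.Agent.Helper70.SK

open Finset Pool.Agent.Helper70.DK

variable {Ω α β γ : Type}

theorem pin_mem (S : Finset Ω) (G : Ω → γ) (c : γ) (ω : Ω) : ω ∈ fib S G c ↔ ω ∈ S ∧ G ω = c := by
  classical
  unfold fib
  exact Finset.mem_filter

theorem pin_card_pos (S : Finset Ω) (G : Ω → γ) (ω : Ω) (hω : ω ∈ S) :
    (0 : ℝ) < ((fib S G (G ω)).card : ℝ) := by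
  classical
  have : 0 < (fib S G (G ω)).card := Finset.card_pos.2 ⟨ω, (pin_mem S G _ ω).2 ⟨hω, rfl⟩⟩
  exact_mod_cast this

theorem pin_avg (S : Finset Ω) (G : Ω → γ) (r : Ω → ℝ) :
    ∑ ω ∈ S, (∑ ω' ∈ fib S G (G ω), r ω') / ((fib S G (G ω)).card : ℝ) = ∑ ω ∈ S, r ω := by
  classical
  have h1 : ∀ ω ∈ S, (∑ ω' ∈ fib S G (G ω), r ω') / ((fib S G (G ω)).card : ℝ) =
      ∑ ω' ∈ S, if G ω = G ω' then r ω' / ((fib S G (G ω')).card : ℝ) else 0 := by
    intro ω _
    have e0 : ∑ ω' ∈ fib S G (G ω), r ω' = ∑ ω' ∈ S, if G ω' = G ω then r ω' else 0 := by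
      unfold fib
      rw [Finset.sum_filter]
    rw [e0, Finset.sum_div]
    refine Finset.sum_congr rfl fun ω' _ => ?_
    by_cases h : G ω' = G ω
    · rw [if_pos h, if_pos h.symm, h]
    · rw [if_neg h, if_neg (fun e => h e.symm), zero_div]
  rw [Finset.sum_congr rfl h1, Finset.sum_comm]
  refine Finset.sum_congr rfl fun ω' hω' => ?_
  rw [← Finset.sum_filter, Finset.sum_const, nsmul_eq_mul]
  have h2 := pin_card_pos S G ω' hω'
  have h3 : ((S.filter (fun a => G a = G ω')).card : ℝ) = ((fib S G (G ω')).card : ℝ) := by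
    unfold fib
    congr
  rw [h3]
  field_simp

theorem pin_bc (G : Finset Ω) (F : Ω → α) (A : Finset α) (hA : ∀ x ∈ G, F x ∈ A) (Q : α → ℝ) :
    (∑ ω' ∈ G, Real.sqrt (Q (F ω') / law G F (F ω'))) / (G.card : ℝ) =
      ∑ a ∈ A, Real.sqrt (law G F a * Q a) := by
  classical
  rw [← Finset.sum_fiberwise_of_maps_to hA, Finset.sum_div]
  refine Finset.sum_congr rfl fun a _ => ?_
  have e1 : ∀ ω ∈ G.filter (fun ω => F ω = a), Real.sqrt (Q (F ω) / law G F (F ω)) =
      Real.sqrt (Q a / law G F a) := fun ω hω => by rw [(Finset.mem_filter.1 hω).2]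
  rw [Finset.sum_congr rfl e1, Finset.sum_const, nsmul_eq_mul]
  have e2 : ((G.filter (fun ω => F ω = a)).card : ℝ) / (G.card : ℝ) = law G F a := by
    unfold law
    congr
  rw [mul_div_right_comm, e2]
  have hP := law_nonneg G F a
  rcases hP.eq_or_lt with h0 | h0
  · rw [← h0]; simp
  · rw [← Real.sqrt_sq h0.le, ← Real.sqrt_mul (sq_nonneg _), Real.sqrt_sq h0.le]
    congr 1
    field_simp

theorem pin_l1 (G G' : Finset Ω) (F : Ω → α) (A : Finset α) (hA : ∀ x ∈ G, F x ∈ A)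
    (hA' : ∀ x ∈ G', F x ∈ A) (hG : G.Nonempty) (hG' : G'.Nonempty) :
    (l1 G F G' F) ^ 2 ≤ 8 * (1 - ∑ a ∈ A, Real.sqrt (law G F a * law G' F a)) := by
  classical
  rw [l1_eq_sum G F G' F A hA hA']
  have s1 := law_sum G F A hA hG
  have s2 := law_sum G' F A hA' hG'
  set p : α → ℝ := law G F with hp
  set q : α → ℝ := law G' F with hq
  have p0 : ∀ a, 0 ≤ p a := law_nonneg G F
  have q0 : ∀ a, 0 ≤ q a := law_nonneg G' F
  have h1 : ∑ a ∈ A, |p a - q a| =
      ∑ a ∈ A, |Real.sqrt (p a) - Real.sqrt (q a)| * (Real.sqrt (p a) + Real.sqrt (q a)) := by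
    refine Finset.sum_congr rfl fun a _ => ?_
    have hpos : 0 ≤ Real.sqrt (p a) + Real.sqrt (q a) := by positivity
    rw [← abs_of_nonneg hpos, ← abs_mul]
    congr 1
    have e1 := Real.mul_self_sqrt (p0 a)
    have e2 := Real.mul_self_sqrt (q0 a)
    linear_combination (-1 : ℝ) * e1 + e2
  rw [h1]
  have h2 := Finset.sum_mul_sq_le_sq_mul_sq A (fun a => |Real.sqrt (p a) - Real.sqrt (q a)|)
    (fun a => Real.sqrt (p a) + Real.sqrt (q a))
  refine h2.trans ?_
  have h3 : ∑ a ∈ A, |Real.sqrt (p a) - Real.sqrt (q a)| ^ 2 =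
      2 * (1 - ∑ a ∈ A, Real.sqrt (p a * q a)) := by
    have : ∀ a ∈ A, |Real.sqrt (p a) - Real.sqrt (q a)| ^ 2 = p a + q a - 2 * Real.sqrt (p a * q a) := by
      intro a _
      rw [sq_abs, Real.sqrt_mul (p0 a)]
      have e1 := Real.mul_self_sqrt (p0 a)
      have e2 := Real.mul_self_sqrt (q0 a)
      linear_combination e1 + e2
    rw [Finset.sum_congr rfl this, Finset.sum_sub_distrib, Finset.sum_add_distrib, s1, s2,
      ← Finset.mul_sum]
    ring
  have h4 : ∑ a ∈ A, (Real.sqrt (p a) + Real.sqrt (q a)) ^ 2 ≤ 4 := by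
    have : ∀ a ∈ A, (Real.sqrt (p a) + Real.sqrt (q a)) ^ 2 ≤ 2 * p a + 2 * q a := by
      intro a _
      have e1 := Real.mul_self_sqrt (p0 a)
      have e2 := Real.mul_self_sqrt (q0 a)
      nlinarith [sq_nonneg (Real.sqrt (p a) - Real.sqrt (q a))]
    refine (Finset.sum_le_sum this).trans ?_
    rw [Finset.sum_add_distrib, ← Finset.mul_sum, ← Finset.mul_sum, s1, s2]
    norm_num
  have h5 : 0 ≤ ∑ a ∈ A, |Real.sqrt (p a) - Real.sqrt (q a)| ^ 2 :=
    Finset.sum_nonneg fun _ _ => sq_nonneg _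
  calc (∑ a ∈ A, |Real.sqrt (p a) - Real.sqrt (q a)| ^ 2) *
        ∑ a ∈ A, (Real.sqrt (p a) + Real.sqrt (q a)) ^ 2
      ≤ (∑ a ∈ A, |Real.sqrt (p a) - Real.sqrt (q a)| ^ 2) * 4 :=
        mul_le_mul_of_nonneg_left h4 h5
    _ = 8 * (1 - ∑ a ∈ A, Real.sqrt (p a * q a)) := by rw [h3]; ring

theorem pin_log (p q : ℝ) (hp : 0 < p) (hq : 0 < q) :
    2 * (1 - Real.sqrt (q / p)) ≤ Real.log p - Real.log q := by
  have h0 : 0 < q / p := div_pos hq hp
  have h1 := Real.log_le_sub_one_of_pos (Real.sqrt_pos.2 h0)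
  rw [Real.log_sqrt h0.le, Real.log_div hq.ne' hp.ne'] at h1
  linarith

theorem pin_law (S : Finset Ω) (F : Ω → α) (g : Ω → β) (ω : Ω) (hω : ω ∈ S) :
    0 < law (fib S g (g ω)) F (F ω) ∧
    Real.log (law (fib S g (g ω)) F (F ω)) =
      Real.log (((@Finset.filter Ω (fun ω' => (F ω', g ω') = (F ω, g ω)) (fun _ => Classical.propDecidable _) S).card : ℝ)) -
      Real.log (((@Finset.filter Ω (fun ω' => g ω' = g ω) (fun _ => Classical.propDecidable _) S).card : ℝ)) := by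
  classical
  have e1 : (Finset.filter (fun ω' => F ω' = F ω) (fib S g (g ω))).card =
      (@Finset.filter Ω (fun ω' => (F ω', g ω') = (F ω, g ω)) (fun _ => Classical.propDecidable _) S).card := by
    unfold fib
    rw [Finset.filter_filter]
    congr 1
    ext x
    simp only [Finset.mem_filter, Prod.ext_iff]
    tauto
  have e2 : (fib S g (g ω)).card =
      (@Finset.filter Ω (fun ω' => g ω' = g ω) (fun _ => Classical.propDecidable _) S).card := by
    unfold fib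
    congr
  have c1 : 0 < (@Finset.filter Ω (fun ω' => (F ω', g ω') = (F ω, g ω)) (fun _ => Classical.propDecidable _) S).card :=
    Finset.card_pos.2 ⟨ω, by simp [hω]⟩
  have c2 : 0 < (@Finset.filter Ω (fun ω' => g ω' = g ω) (fun _ => Classical.propDecidable _) S).card :=
    Finset.card_pos.2 ⟨ω, by simp [hω]⟩
  have c1' : (0 : ℝ) < ((@Finset.filter Ω (fun ω' => (F ω', g ω') = (F ω, g ω))
    (fun _ => Classical.propDecidable _) S).card : ℝ) := by exact_mod_cast c1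
  have c2' : (0 : ℝ) < ((@Finset.filter Ω (fun ω' => g ω' = g ω) (fun _ => Classical.propDecidable _) S).card : ℝ) := by
    exact_mod_cast c2
  have e3 : law (fib S g (g ω)) F (F ω) =
      ((@Finset.filter Ω (fun ω' => (F ω', g ω') = (F ω, g ω)) (fun _ => Classical.propDecidable _) S).card : ℝ) /
      ((@Finset.filter Ω (fun ω' => g ω' = g ω) (fun _ => Classical.propDecidable _) S).card : ℝ) := by
    rw [← e1, ← e2]
    unfold law
    congr
  rw [e3]
  exact ⟨div_pos c1' c2', Real.log_div c1'.ne' c2'.ne'⟩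

theorem pin_cent (S : Finset Ω) (F : Ω → α) (g : Ω → β) (hS : S.Nonempty) :
    (S.card : ℝ) * cent S F g = - ∑ ω ∈ S, Real.log (law (fib S g (g ω)) F (F ω)) := by
  classical
  have hn : (0 : ℝ) < S.card := by exact_mod_cast hS.card_pos
  unfold cent ent
  rw [mul_sub, mul_div_cancel₀ _ hn.ne', mul_div_cancel₀ _ hn.ne', ← Finset.sum_sub_distrib,
    ← Finset.sum_neg_distrib]
  refine Finset.sum_congr rfl fun ω hω => ?_
  rw [(pin_law S F g ω hω).2]
  ring

theorem st_PIN : ST_PIN := by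
  intro Ω α β ζ S F T Z hS
  classical
  have hn : (0 : ℝ) < S.card := by exact_mod_cast hS.card_pos
  set g : Ω → β × ζ := fun ω => (T ω, Z ω) with hg
  set I : ℝ := cent S F Z - cent S F g with hI
  have hI0 : 0 ≤ I := by
    have := cent_mono_right S F Z g (fun x _ y _ e => (Prod.ext_iff.1 e).2)
    rw [hI]; linarith
  set f : Ω → ℝ := fun ω => l1 (fib S g (g ω)) F (fib S Z (Z ω)) F with hf
  set p : Ω → ℝ := fun ω => law (fib S g (g ω)) F (F ω) with hp
  set q : Ω → ℝ := fun ω => law (fib S Z (Z ω)) F (F ω) with hq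
  have hsub : ∀ (δ : Type) (h : Ω → δ) (c : δ), ∀ x ∈ fib S h c, F x ∈ S.image F := by
    intro δ h c x hx
    exact Finset.mem_image_of_mem F ((pin_mem S h c x).1 hx).1
  have hmem : ∀ (δ : Type) (h : Ω → δ), ∀ ω ∈ S, (fib S h (h ω)).Nonempty := by
    intro δ h ω hω
    exact ⟨ω, (pin_mem S h _ ω).2 ⟨hω, rfl⟩⟩
  -- Bhattacharyya coefficients
  have hbc : ∑ ω ∈ S, ∑ a ∈ S.image F, Real.sqrt (law (fib S g (g ω)) F a * law (fib S Z (Z ω)) F a) =
      ∑ ω ∈ S, Real.sqrt (q ω / p ω) := by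
    rw [← pin_avg S g (fun ω => Real.sqrt (q ω / p ω))]
    refine Finset.sum_congr rfl fun ω hω => ?_
    rw [← pin_bc (fib S g (g ω)) F (S.image F) (hsub _ g _) (law (fib S Z (Z ω)) F)]
    congr 1
    refine Finset.sum_congr rfl fun ω' hω' => ?_
    have e1 : g ω' = g ω := ((pin_mem S g _ ω').1 hω').2
    have e2 : Z ω' = Z ω := (Prod.ext_iff.1 e1).2
    simp only [hp, hq]
    rw [e1, e2]
  have hl1 : ∑ ω ∈ S, (f ω) ^ 2 ≤ 8 * (S.card - ∑ ω ∈ S, Real.sqrt (q ω / p ω)) := by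
    rw [← hbc]
    have h1 : ∀ ω ∈ S, (f ω) ^ 2 ≤
        8 * (1 - ∑ a ∈ S.image F, Real.sqrt (law (fib S g (g ω)) F a * law (fib S Z (Z ω)) F a)) :=
      fun ω hω => pin_l1 _ _ F (S.image F) (hsub _ g _) (hsub _ Z _) (hmem _ g ω hω) (hmem _ Z ω hω)
    refine (Finset.sum_le_sum h1).trans ?_
    rw [← Finset.mul_sum, Finset.sum_sub_distrib]
    simp
  have hkl : 2 * (S.card - ∑ ω ∈ S, Real.sqrt (q ω / p ω)) ≤ S.card * I := by
    have e1 := pin_cent S F Z hS
    have e2 := pin_cent S F g hS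
    have e3 : (S.card : ℝ) * I = ∑ ω ∈ S, (Real.log (p ω) - Real.log (q ω)) := by
      rw [hI, mul_sub, e1, e2, Finset.sum_sub_distrib]
      ring
    rw [e3]
    have h1 : ∀ ω ∈ S, 2 * (1 - Real.sqrt (q ω / p ω)) ≤ Real.log (p ω) - Real.log (q ω) :=
      fun ω hω => pin_log _ _ (pin_law S F g ω hω).1 (pin_law S F Z ω hω).1
    refine le_trans (le_of_eq ?_) (Finset.sum_le_sum h1)
    rw [← Finset.mul_sum, Finset.sum_sub_distrib]
    simp
  have hcs : (∑ ω ∈ S, f ω) ^ 2 ≤ (S.card : ℝ) * ∑ ω ∈ S, (f ω) ^ 2 := sq_sum_le_card_mul_sum_sq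
  have hfin : (∑ ω ∈ S, f ω) ^ 2 ≤ ((S.card : ℝ) * (2 * Real.sqrt I)) ^ 2 := by
    have e1 : ((S.card : ℝ) * (2 * Real.sqrt I)) ^ 2 = (S.card : ℝ) * (4 * (S.card * I)) := by
      have := Real.mul_self_sqrt hI0
      linear_combination (4 * (S.card : ℝ) ^ 2) * this
    rw [e1]
    refine hcs.trans (mul_le_mul_of_nonneg_left ?_ hn.le)
    linarith
  exact abs_le_of_sq_le_sq' hfin (by positivity) |>.2

end Pool.Agent.Helper70.SK
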